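import Mathlib

set_option autoImplicit false
open Polynomial Finset

namespace Pool.Agent.H.MP_450528_ag

noncomputable def QQ {R : Type} [CommRing R] (δ A B : R) : R[X] :=
  (X - C δ) * (1 + X ^ 2) ^ 2 + C A * X ^ 2 + C B * X - C A

theorem QQ_deg (δ A B : ℂ) : (QQ δ A B).natDegree = 5 := by unfold QQ; compute_degree!

theorem QQ_res (δ A B : ℂ) : resultant (QQ δ A B) (derivative (QQ δ A B)) 5 4 ≠ 0 ↔
    (QQ δ A B).Separable := by
  have h : (derivative (QQ δ A B)).natDegree = 4 := by rw [natDegree_derivative, QQ_deg]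
  have h0 : QQ δ A B ≠ 0 := fun e => by have := QQ_deg δ A B; rw [e] at this; simp at this
  have := resultant_eq_zero_iff (f := QQ δ A B) (g := derivative (QQ δ A B))
  rw [h, QQ_deg] at this
  rw [Ne, this, separable_def]; simp [h0]

section
variable {n : ℕ} {R : Type} [CommRing R] (c : R) (T : Fin 2 × Fin n → R)
def ss (j : Fin n) : R := T (0, j) + T (1, j) - c * ∑ k, (T (0, k) + T (1, k))
def de : R := ∑ k, (T (0, k) - T (1, k))
def dd (j : Fin n) : R := T (0, j) - T (1, j) - c * de T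
def cA : R := n * ∑ j, ss c T j * dd c T j
def cB : R := n * ∑ j, (ss c T j ^ 2 - dd c T j ^ 2)
end

variable {n : ℕ}

def Cr (T x : Fin 2 × Fin n → ℂ) : Prop :=
  ∑ I, x I = 1 ∧ ∃ (a : Fin 2 → ℂ) (b : Fin n → ℂ), (∀ I, x I = a I.1 * b I.2) ∧
    ∀ (a' : Fin 2 → ℂ) (b' : Fin n → ℂ), ∑ I : Fin 2 × Fin n, (a' I.1 * b I.2 + b' I.2 * a I.1) = 0 →
      ∑ I, (x I - T I) * (a' I.1 * b I.2 + b' I.2 * a I.1) = 0

noncomputable def XX (T : Fin 2 × Fin n → ℂ) (w : ℂ) (I : Fin 2 × Fin n) : ℂ :=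
  ![(1 + w) / 2, (1 - w) / 2] I.1
    * ((n : ℂ)⁻¹ + (ss (n : ℂ)⁻¹ T I.2 + w * dd (n : ℂ)⁻¹ T I.2) / (1 + w ^ 2))

theorem key (hn : (n : ℂ) ≠ 0) (T : Fin 2 × Fin n → ℂ) (w : ℂ) (v : Fin n → ℂ) (hv0 : ∑ j, v j = 0)
    (hv : ∀ j, (1 + w ^ 2) * v j = ss (n : ℂ)⁻¹ T j + w * dd (n : ℂ)⁻¹ T j) :
    (QQ (de T) (cA (n : ℂ)⁻¹ T) (cB (n : ℂ)⁻¹ T)).eval w = n * (1 + w ^ 2) ^ 2 *
      ∑ j, ((n : ℂ)⁻¹ + v j) * (w * ((n : ℂ)⁻¹ + v j) - (T (0, j) - T (1, j))) := by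
  have e : ∀ j, n * (1 + w ^ 2) ^ 2 * (((n : ℂ)⁻¹ + v j) * (w * ((n : ℂ)⁻¹ + v j) - (T (0, j) - T (1, j))))
      = (1 + w ^ 2) ^ 2 * (w * (n : ℂ)⁻¹ - (T (0, j) - T (1, j)) + (2 * w - de T) * v j)
        + n * ((w ^ 2 - 1) * (ss (n : ℂ)⁻¹ T j * dd (n : ℂ)⁻¹ T j)
          + w * (ss (n : ℂ)⁻¹ T j ^ 2 - dd (n : ℂ)⁻¹ T j ^ 2)) := by
    intro j
    have h1 : ss (n : ℂ)⁻¹ T j = (1 + w ^ 2) * v j - w * dd (n : ℂ)⁻¹ T j := by rw [hv]; ring
    rw [h1, dd]; field_simp; ring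
  rw [mul_sum, sum_congr rfl fun j _ => e j]
  simp only [QQ, eval_sub, eval_add, eval_mul, eval_X, eval_C, eval_pow, eval_one]
  simp only [sum_add_distrib, ← mul_sum, hv0, sum_sub_distrib, cA, cB, de]
  simp; field_simp; ring

theorem sum_ss (hn : (n : ℂ) ≠ 0) (T : Fin 2 × Fin n → ℂ) (w : ℂ) :
    ∑ j, (ss (n : ℂ)⁻¹ T j + w * dd (n : ℂ)⁻¹ T j) = 0 := by
  simp only [ss, dd, de, sum_add_distrib, ← mul_sum, sum_sub_distrib]
  simp; field_simp; ring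

theorem char (hn : (n : ℂ) ≠ 0) (T : Fin 2 × Fin n → ℂ)
    (hT : 4 * cA (n : ℂ)⁻¹ T ^ 2 + cB (n : ℂ)⁻¹ T ^ 2 ≠ 0) (x : Fin 2 × Fin n → ℂ) :
    Cr T x ↔ ∃ w, (QQ (de T) (cA (n : ℂ)⁻¹ T) (cB (n : ℂ)⁻¹ T)).eval w = 0 ∧ x = XX T w := by
  have hw : ∀ w, (QQ (de T) (cA (n : ℂ)⁻¹ T) (cB (n : ℂ)⁻¹ T)).eval w = 0 → 1 + w ^ 2 ≠ 0 := by
    intro w h h1
    simp only [QQ, eval_sub, eval_add, eval_mul, eval_X, eval_C, eval_pow, eval_one, h1] at h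
    apply hT
    linear_combination (-2 * cA (n : ℂ)⁻¹ T - w * cB (n : ℂ)⁻¹ T) * h
      + (cB (n : ℂ)⁻¹ T ^ 2 + 2 * cA (n : ℂ)⁻¹ T ^ 2 + w * cA (n : ℂ)⁻¹ T * cB (n : ℂ)⁻¹ T) * h1
  constructor
  · rintro ⟨h1, a, b, h2, h3⟩
    simp only [h2, Fintype.sum_prod_type, Fin.sum_univ_two, ← mul_sum] at h1 h3
    set β := ∑ j, b j with hβ
    let w := (a 0 - a 1) * β
    let v : Fin n → ℂ := fun j => (a 0 + a 1) * b j - (n : ℂ)⁻¹
    have hv0 : ∑ j, v j = 0 := by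
      simp only [v, sum_sub_distrib, ← mul_sum, ← hβ]; simp; field_simp; linear_combination h1
    have hv : ∀ j, (1 + w ^ 2) * v j = ss (n : ℂ)⁻¹ T j + w * dd (n : ℂ)⁻¹ T j := by
      intro j
      have := h3 0 (fun k => (if k = j then 1 else 0) - (n : ℂ)⁻¹) (by
        simp [← sum_mul, hn])
      simp only [Pi.zero_apply, zero_mul, zero_add, sub_mul, mul_sub, sum_sub_distrib, ite_mul,
        mul_ite, mul_zero, sum_ite_eq', mem_univ, if_true, ← sum_mul, ← mul_sum, ← hβ] at this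
      simp only [ss, dd, de, v, w, sum_add_distrib, sum_sub_distrib]
      linear_combination 2 * β * this + (2 * (a 0 ^ 2 + a 1 ^ 2) * β * b j
        - (1 + a 0 * β + a 1 * β) * ((a 0 + a 1) * b j - (n : ℂ)⁻¹) + T (0, j) + T (1, j)
        - (n : ℂ)⁻¹ * (∑ x, T (0, x) + ∑ x, T (1, x))) * h1
    have hq := key hn T w v hv0 hv
    have h4 := h3 ![1, -1] 0 (by simp)
    have h5 : ∑ j, ((n : ℂ)⁻¹ + v j) * (w * ((n : ℂ)⁻¹ + v j) - (T (0, j) - T (1, j))) = 0 := by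
      rw [← sum_add_distrib] at h4
      rw [← mul_zero (a 0 + a 1), ← h4, mul_sum]
      refine sum_congr rfl fun j _ => ?_
      simp only [v, w]; simp
      linear_combination ((a 0 + a 1) * (a 0 - a 1) * b j ^ 2) * h1
    rw [h5, mul_zero] at hq
    refine ⟨w, hq, funext fun ⟨i, j⟩ => ?_⟩
    rw [h2, XX, ← hv, mul_div_cancel_left₀ _ (hw w hq)]
    fin_cases i <;> simp [v, w]
    · linear_combination (-(a 0 - a 1) / 2 * b j) * h1
    · linear_combination ((a 0 - a 1) / 2 * b j) * h1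
  · rintro ⟨w, hq, rfl⟩
    have h1 := hw w hq
    let v : Fin n → ℂ := fun j => (ss (n : ℂ)⁻¹ T j + w * dd (n : ℂ)⁻¹ T j) / (1 + w ^ 2)
    have hv0 : ∑ j, v j = 0 := by simp only [v, ← sum_div, sum_ss hn, zero_div]
    have hv : ∀ j, (1 + w ^ 2) * v j = ss (n : ℂ)⁻¹ T j + w * dd (n : ℂ)⁻¹ T j := fun j =>
      mul_div_cancel₀ _ h1
    have hb : ∑ j, ((n : ℂ)⁻¹ + v j) = 1 := by simp [sum_add_distrib, hv0, hn]
    have h5 := (mul_eq_zero.mp ((key hn T w v hv0 hv).symm.trans hq)).resolve_left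
      (mul_ne_zero hn (pow_ne_zero _ h1))
    have hX : ∀ I, XX T w I = ![(1 + w) / 2, (1 - w) / 2] I.1 * ((n : ℂ)⁻¹ + v I.2) := fun _ => rfl
    refine ⟨?_, _, fun j => (n : ℂ)⁻¹ + v j, hX, fun a' b' h => ?_⟩
    · simp only [hX, Fintype.sum_prod_type, Fin.sum_univ_two, ← mul_sum, hb]; simp; ring
    · obtain ⟨γ, hγ⟩ : ∃ γ : ℂ, ∀ j, ((1 + w) / 2 * ((n : ℂ)⁻¹ + v j) - T (0, j)) * ((1 + w) / 2)
          + ((1 - w) / 2 * ((n : ℂ)⁻¹ + v j) - T (1, j)) * ((1 - w) / 2) = γ :=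
        ⟨(n : ℂ)⁻¹ * (1 + w ^ 2 - ∑ k, (T (0, k) + T (1, k)) - w * de T) / 2, fun j => by
          have := hv j
          simp only [ss, dd] at this
          linear_combination this / 2⟩
      let ρ0 := ∑ j, ((1 + w) / 2 * ((n : ℂ)⁻¹ + v j) - T (0, j)) * ((n : ℂ)⁻¹ + v j)
      let ρ1 := ∑ j, ((1 - w) / 2 * ((n : ℂ)⁻¹ + v j) - T (1, j)) * ((n : ℂ)⁻¹ + v j)
      have e1 : ρ0 - ρ1 = 0 := by
        rw [← h5, ← sum_sub_distrib]; exact sum_congr rfl fun j _ => by ring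
      have e2 : (1 + w) / 2 * ρ0 + (1 - w) / 2 * ρ1 = γ := by
        rw [show γ = γ * ∑ j, ((n : ℂ)⁻¹ + v j) by rw [hb, mul_one], mul_sum, mul_sum, mul_sum,
          ← sum_add_distrib]
        exact sum_congr rfl fun j _ => by rw [← hγ j]; ring
      simp only [Fintype.sum_prod_type, Fin.sum_univ_two, sum_add_distrib, ← mul_sum, ← sum_mul,
        hb, Matrix.cons_val_zero, Matrix.cons_val_one] at h
      have e3 : ∑ I, (XX T w I - T I) * (a' I.1 * ((n : ℂ)⁻¹ + v I.2)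
          + b' I.2 * ![(1 + w) / 2, (1 - w) / 2] I.1) = a' 0 * ρ0 + a' 1 * ρ1 + γ * ∑ j, b' j := by
        simp only [hX, Fintype.sum_prod_type, Fin.sum_univ_two, Matrix.cons_val_zero,
          Matrix.cons_val_one, ρ0, ρ1, mul_sum, ← sum_add_distrib]
        exact sum_congr rfl fun j _ => by rw [← hγ j]; ring
      rw [e3]
      linear_combination γ * h + (a' 0 * (1 - w) / 2 - a' 1 * (1 + w) / 2) * e1 + (a' 0 + a' 1) * e2

theorem XX_inj (hn : (n : ℂ) ≠ 0) (T : Fin 2 × Fin n → ℂ) : Function.Injective (XX T) := by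
  intro w w' h
  have e : ∀ w, ∑ j, XX T w (0, j) = (1 + w) / 2 := fun w => by
    simp only [XX, ← mul_sum, sum_add_distrib, ← sum_div, sum_ss hn]; simp [hn]
  have := e w
  rw [h, e] at this
  linear_combination -2 * this

theorem count (hn : (n : ℂ) ≠ 0) (T : Fin 2 × Fin n → ℂ)
    (hT : 4 * cA (n : ℂ)⁻¹ T ^ 2 + cB (n : ℂ)⁻¹ T ^ 2 ≠ 0)
    (hs : (QQ (de T) (cA (n : ℂ)⁻¹ T) (cB (n : ℂ)⁻¹ T)).Separable) :
    {x | Cr T x}.Finite ∧ {x | Cr T x}.ncard = 5 := by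
  have e : {x | Cr T x} = XX T '' (QQ (de T) (cA (n : ℂ)⁻¹ T) (cB (n : ℂ)⁻¹ T)).rootSet ℂ := by
    ext x
    simp only [Set.mem_ofPred_eq, char hn T hT, Set.mem_image, mem_rootSet_of_ne hs.ne_zero,
      coe_aeval_eq_eval, eq_comm (a := x)]
  rw [e, Set.ncard_image_of_injective _ (XX_inj hn T)]
  refine ⟨(rootSet_finite _ _).image _, ?_⟩
  rw [← Nat.card_coe_set_eq, Nat.card_eq_fintype_card,
    card_rootSet_eq_natDegree hs (IsAlgClosed.splits _), QQ_deg]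

def T0 (I : Fin 2 × Fin 26) : ℝ := if I = (0, 0) then 1 else 0

theorem T0_vals : de (fun I => (T0 I : ℂ)) = 1 ∧ cA ((26 : ℕ) : ℂ)⁻¹ (fun I => (T0 I : ℂ)) = 25 ∧
    cB ((26 : ℕ) : ℂ)⁻¹ (fun I => (T0 I : ℂ)) = 0 := by
  have e : ∀ j, (T0 (0, j) : ℂ) = if j = 0 then 1 else 0 := fun j => by
    simp only [T0, Prod.mk.injEq, true_and]; split_ifs <;> simp
  have e1 : ∀ j, (T0 (1, j) : ℂ) = 0 := fun j => by simp [T0]
  simp only [cA, cB, ss, dd, de, e, e1]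
  refine ⟨by simp, ?_, by simp⟩
  simp only [Fin.sum_univ_succ (n := 25), Fin.succ_ne_zero]
  norm_num

theorem sep0 : (QQ (1 : ℂ) 25 0).Separable := by
  refine ⟨C (11190150 : ℂ)⁻¹ * (-442034 - 537055 * X + 238994 * X ^ 2 - 126455 * X ^ 3),
    C (11190150 : ℂ)⁻¹ * (-302734 + 404368 * X + 133157 * X ^ 2 - 52857 * X ^ 3 + 25291 * X ^ 4), ?_⟩
  have : C (11190150 : ℂ)⁻¹ * 11190150 = 1 := by
    rw [← map_ofNat C, ← map_mul, inv_mul_cancel₀ (by norm_num), map_one]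
  simp only [QQ, derivative_sub, derivative_add, derivative_mul, derivative_X, derivative_C,
    derivative_pow, derivative_one, map_ofNat, map_one, map_zero, derivative_ofNat]
  simp only [Nat.cast_ofNat, map_ofNat]
  linear_combination this

end Pool.Agent.H.MP_450528_ag
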